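import Pool.Agent.W218.OG.Pat

/-!
# From patterns of all classes to patterns of one class

Abstract form: if the union of finitely many translation invariant families of exact patterns follows
every finite set up to a bounded error, then one of the families does.
-/

set_option autoImplicit false

namespace Pool.Agent.Q51.OC

open Finset Pool.Agent.W218.OG.Ab

/-- `H` has at least `m` elements within `C` of each element of `V`, and no others -/
def NearS (C m : ℕ) (V H : Finset ℤ) : Prop :=
  (∀ x ∈ V, m ≤ (H.filter (fun h => |h - x| ≤ C)).card) ∧ (∀ h ∈ H, ∃ x ∈ V, |h - x| ≤ C)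

/-- a separated subset -/
theorem separated (V : Finset ℤ) (D : ℕ) : ∃ W : Finset ℤ, W ⊆ V ∧
    (∀ x ∈ W, ∀ y ∈ W, |x - y| ≤ D → x = y) ∧ ∀ x ∈ V, ∃ y ∈ W, |x - y| ≤ D := by
  classical
  induction V using Finset.induction_on with
  | empty => exact ⟨∅, subset_rfl, by simp, by simp⟩
  | insert a V ha ih =>
    obtain ⟨W, hW1, hW2, hW3⟩ := ih
    by_cases h : ∃ y ∈ W, |a - y| ≤ D
    · refine ⟨W, hW1.trans (subset_insert _ _), hW2, fun x hx => ?_⟩
      rcases mem_insert.1 hx with rfl | hx
      · exact h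
      · exact hW3 x hx
    · push Not at h
      refine ⟨insert a W, insert_subset_insert _ hW1, ?_, fun x hx => ?_⟩
      · intro x hx y hy hxy
        rcases mem_insert.1 hx with hx | hx
        · rcases mem_insert.1 hy with hy | hy
          · rw [hx, hy]
          · rw [hx] at hxy
            exact absurd hxy (not_le.2 (h y hy))
        · rcases mem_insert.1 hy with hy | hy
          · rw [hy, abs_sub_comm] at hxy
            exact absurd hxy (not_le.2 (h x hx))
          · exact hW2 x hx y hy hxy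
      · rcases mem_insert.1 hx with rfl | hx
        · exact ⟨x, mem_insert_self _ _, by simp⟩
        · obtain ⟨y, hy, hxy⟩ := hW3 x hx
          exact ⟨y, mem_insert_of_mem hy, hxy⟩

/-- the elements of a finite set of integers are bounded -/
theorem bound (V : Finset ℤ) : ∃ M : ℕ, ∀ x ∈ V, |x| ≤ M := by
  refine ⟨∑ x ∈ V, x.natAbs, fun x hx => ?_⟩
  have h1 : x.natAbs ≤ ∑ x ∈ V, x.natAbs :=
    single_le_sum (f := fun x : ℤ => x.natAbs) (fun _ _ => Nat.zero_le _) hx
  rw [Int.abs_eq_natAbs]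
  exact_mod_cast h1

/-- the sets which certify that the classes before `j` are bad -/
def Cert {q : ℕ} (PatC : Fin q → Finset ℤ → ℕ → Prop) (C₀ k m j : ℕ) : Prop :=
  ∃ (W : Finset ℤ) (ρ : ℕ), W.Nonempty ∧ W.card ≤ k ^ j ∧
    ∀ (χ : Fin q → Finset ℤ) (t : ℤ),
      (∀ w ∈ W, ∃ i : Fin q, i.val < j ∧
        m ≤ ((χ i).filter (fun y => |y - (t + w)| ≤ C₀)).card) →
      (∀ i, ∀ y ∈ χ i, |y - t| ≤ ρ → ∃ w ∈ W, |y - (t + w)| ≤ C₀) →
      ∃ i R, ¬ PatC i (χ i) R

theorem cert_step {q : ℕ} {PatC : Fin q → Finset ℤ → ℕ → Prop} (hT : ∀ c, Trans (PatC c))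
    {C₀ k m j : ℕ} (hj : j < q)
    (hbad : ∀ C : ℕ, ∃ V : Finset ℤ, V.Nonempty ∧ V.card ≤ k ∧ ∀ H, NearS C m V H →
      ∃ R, ¬ PatC ⟨j, hj⟩ H R)
    (h : Cert PatC C₀ k m j) : Cert PatC C₀ k m (j + 1) := by
  classical
  obtain ⟨W, ρ, hWne, hWk, hW⟩ := h
  obtain ⟨M, hM⟩ := bound W
  -- the separation
  set D : ℕ := ρ + C₀ + M + 1 with hD
  set E : ℕ := C₀ + M with hE
  obtain ⟨V, hVne, hVk, hV⟩ := hbad (E + D)
  obtain ⟨U, hUV, hUsep, hUnear⟩ := separated V D
  have hUne : U.Nonempty := by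
    obtain ⟨x, hx⟩ := hVne
    obtain ⟨y, hy, -⟩ := hUnear x hx
    exact ⟨y, hy⟩
  have hUbad : ∀ H, NearS E m U H → ∃ R, ¬ PatC ⟨j, hj⟩ H R := by
    rintro H ⟨h1, h2⟩
    refine hV H ⟨fun x hx => ?_, fun h hh => ?_⟩
    · obtain ⟨y, hy, hxy⟩ := hUnear x hx
      refine (h1 y hy).trans (card_le_card fun z hz => ?_)
      rw [mem_filter] at hz ⊢
      refine ⟨hz.1, ?_⟩
      have h3 : |z - x| ≤ |z - y| + |x - y| := by
        have e : z - x = (z - y) + -(x - y) := by ring
        rw [e]
        refine (abs_add_le _ _).trans ?_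
        rw [abs_neg]
      push_cast
      linarith [hz.2]
    · obtain ⟨x, hx, hxh⟩ := h2 h hh
      refine ⟨x, hUV hx, hxh.trans ?_⟩
      push_cast
      have : (0 : ℤ) ≤ D := Nat.cast_nonneg _
      linarith
  -- a common radius
  obtain ⟨L, hL⟩ := bound U
  set B : Finset ℤ := Icc (-((L : ℤ) + E)) (L + E) with hB
  have hHB : ∀ H, NearS E m U H → H ∈ B.powerset := by
    intro H hH
    rw [mem_powerset]
    intro h hh
    obtain ⟨x, hx, hxh⟩ := hH.2 h hh
    have h1 := abs_le.1 (hL x hx)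
    have h2 := abs_le.1 hxh
    rw [hB, mem_Icc]
    constructor <;> linarith [h1.1, h1.2, h2.1, h2.2]
  have hex : ∀ H : Finset ℤ, ∃ R, NearS E m U H → ¬ PatC ⟨j, hj⟩ H R := by
    intro H
    by_cases hH : NearS E m U H
    · obtain ⟨R, hR⟩ := hUbad H hH
      exact ⟨R, fun _ => hR⟩
    · exact ⟨0, fun h => absurd h hH⟩
  choose Rb hRb using hex
  set Rs : ℕ := B.powerset.sup Rb with hRs
  set R' : ℕ := Rs + L + E with hR'
  refine ⟨(U ×ˢ W).image (fun x => x.1 + x.2), R' + ρ + L, ?_, ?_, ?_⟩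
  · exact (hUne.product hWne).image _
  · refine card_image_le.trans ?_
    rw [card_product, pow_succ, mul_comm]
    exact Nat.mul_le_mul hWk ((card_le_card hUV).trans hVk)
  intro χ t h1 h2
  have hmem : ∀ u ∈ U, ∀ w ∈ W, u + w ∈ (U ×ˢ W).image (fun x => x.1 + x.2) := fun u hu w hw =>
    mem_image.2 ⟨(u, w), mem_product.2 ⟨hu, hw⟩, rfl⟩
  by_cases hA : ∃ v ∈ U, ∀ w ∈ W, ∃ i : Fin q, i.val < j ∧
        m ≤ ((χ i).filter (fun y => |y - (t + v + w)| ≤ C₀)).card
  · -- the classes before `j`
    obtain ⟨v, hv, hvw⟩ := hA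
    refine hW χ (t + v) hvw fun i y hy hyt => ?_
    have hLv := hL v hv
    have h3 : |y - t| ≤ |y - (t + v)| + |v| := by
      have e : y - t = (y - (t + v)) + v := by ring
      rw [e]
      exact abs_add_le _ _
    obtain ⟨z, hz, hzy⟩ := h2 i y hy (by
      push_cast
      have : (0 : ℤ) ≤ R' := Nat.cast_nonneg _
      linarith)
    obtain ⟨⟨v', w'⟩, hvw', rfl⟩ := mem_image.1 hz
    rw [mem_product] at hvw'
    simp only at hvw' hzy
    have h4 : v = v' := by
      refine hUsep v hv v' hvw'.1 ?_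
      have e : v - v' = -(y - (t + v)) + (y - (t + (v' + w'))) + w' := by ring
      rw [e]
      refine (abs_add_le _ _).trans ?_
      have h5 := abs_add_le (-(y - (t + v))) (y - (t + (v' + w')))
      rw [abs_neg] at h5
      have h6 := hM w' hvw'.2
      rw [hD]
      push_cast
      linarith
    refine ⟨w', hvw'.2, ?_⟩
    rw [h4, add_assoc]
    exact hzy
  · -- the class `j`
    push Not at hA
    refine ⟨⟨j, hj⟩, ?_⟩
    set H : Finset ℤ := ((χ ⟨j, hj⟩).image (fun y => y - t)).filter (fun y => |y| ≤ R') with hH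
    have hmemH : ∀ y : ℤ, y ∈ H ↔ (|y| ≤ R' ∧ t + y ∈ χ ⟨j, hj⟩) := by
      intro y
      rw [hH, mem_filter, mem_image]
      constructor
      · rintro ⟨⟨z, hz, rfl⟩, h3⟩
        refine ⟨h3, ?_⟩
        have : t + (z - t) = z := by ring
        rwa [this]
      · rintro ⟨h3, h4⟩
        exact ⟨⟨t + y, h4, by ring⟩, h3⟩
    have hNear : NearS E m U H := by
      constructor
      · intro v hv
        obtain ⟨w, hw, hvw⟩ := hA v hv
        obtain ⟨i, hi, him⟩ := h1 (v + w) (hmem v hv w hw)
        have hij : i = ⟨j, hj⟩ := by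
          apply Fin.ext
          simp only
          by_contra hne
          have h3 : i.val < j := by omega
          have h4 := hvw i h3
          have e : t + (v + w) = t + v + w := by ring
          rw [e] at him
          omega
        rw [hij] at him
        refine him.trans ?_
        apply card_le_card_of_injOn (fun y => y - t)
        · intro y hy
          rw [mem_coe, mem_filter] at hy
          rw [mem_coe, mem_filter]
          simp only
          have h3 := hM w hw
          have h4 : |y - t - v| ≤ C₀ + M := by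
            have e : y - t - v = (y - (t + (v + w))) + w := by ring
            rw [e]
            refine (abs_add_le _ _).trans ?_
            linarith [hy.2]
          have h5 : |y - t| ≤ R' := by
            have e : y - t = (y - t - v) + v := by ring
            rw [e]
            refine (abs_add_le _ _).trans ?_
            have h6 := hL v hv
            rw [hR', hE]
            push_cast
            have : (0 : ℤ) ≤ Rs := Nat.cast_nonneg _
            linarith
          refine ⟨(hmemH _).2 ⟨h5, ?_⟩, ?_⟩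
          · have : t + (y - t) = y := by ring
            rw [this]
            exact hy.1
          · rw [hE]
            push_cast
            exact h4
        · intro y _ y' _ hyy
          simp only at hyy
          linarith
      · intro y hy
        rw [hmemH] at hy
        obtain ⟨z, hz, hzy⟩ := h2 ⟨j, hj⟩ (t + y) hy.2 (by
          have e : t + y - t = y := by ring
          rw [e]
          push_cast
          have h3 : (0 : ℤ) ≤ ρ := Nat.cast_nonneg _
          have h4 : (0 : ℤ) ≤ L := Nat.cast_nonneg _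
          linarith [hy.1])
        obtain ⟨⟨v', w'⟩, hvw', rfl⟩ := mem_image.1 hz
        rw [mem_product] at hvw'
        simp only at hvw' hzy
        refine ⟨v', hvw'.1, ?_⟩
        have e : y - v' = (t + y - (t + (v' + w'))) + w' := by ring
        rw [e]
        refine (abs_add_le _ _).trans ?_
        have h3 := hM w' hvw'.2
        rw [hE]
        push_cast
        linarith
    have hR := hRb H hNear
    have hRle : Rb H ≤ Rs := Finset.le_sup (f := Rb) (hHB H hNear)
    refine ⟨t.natAbs + Rb H, fun hP => hR ?_⟩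
    refine hT _ (χ ⟨j, hj⟩) H (t.natAbs + Rb H) (Rb H) t hP ?_ fun y hy => ?_
    · push_cast
      rw [Int.abs_eq_natAbs]
    · rw [hmemH]
      constructor
      · intro h3
        refine ⟨hy.trans ?_, h3⟩
        rw [hR']
        have h4 : (Rb H : ℤ) ≤ Rs := by exact_mod_cast hRle
        have h5 : (0 : ℤ) ≤ L := Nat.cast_nonneg _
        have h6 : (0 : ℤ) ≤ E := Nat.cast_nonneg _
        push_cast
        linarith
      · exact fun h3 => h3.2

/-- **one class follows every finite pattern up to a bounded error** -/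
theorem one_class {q : ℕ} (Pat : Finset ℤ → ℕ → Prop) (PatC : Fin q → Finset ℤ → ℕ → Prop)
    (hT : ∀ c, Trans (PatC c))
    (hU : ∀ k m : ℕ, ∃ C : ℕ, ∀ V : Finset ℤ, V.Nonempty → V.card ≤ k →
      ∃ H : Finset ℤ, NearS C m V H ∧ ∀ R, Pat H R)
    (hS : ∀ H, (∀ R, Pat H R) → ∃ χ : Fin q → Finset ℤ,
      (∀ h ∈ H, ∃ c, h ∈ χ c) ∧ (∀ c, χ c ⊆ H) ∧ ∀ c R, PatC c (χ c) R) :
    ∃ c : Fin q, ∀ k m : ℕ, ∃ C : ℕ, ∀ V : Finset ℤ, V.Nonempty → V.card ≤ k →
      ∃ H : Finset ℤ, NearS C m V H ∧ ∀ R, PatC c H R := by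
  classical
  by_contra hcon
  push Not at hcon
  choose kk hkk using hcon
  choose mm hmm using hkk
  set k : ℕ := univ.sup kk with hk
  set m : ℕ := univ.sup mm with hm
  have hbad : ∀ c : Fin q, ∀ C : ℕ, ∃ V : Finset ℤ, V.Nonempty ∧ V.card ≤ k ∧
      ∀ H, NearS C m V H → ∃ R, ¬ PatC c H R := by
    intro c C
    obtain ⟨V, hV1, hV2, hV3⟩ := hmm c C
    refine ⟨V, hV1, hV2.trans (le_sup (f := kk) (mem_univ c)), fun H hH => ?_⟩
    refine hV3 H ⟨fun x hx => ?_, hH.2⟩
    exact (le_sup (f := mm) (mem_univ c)).trans (hH.1 x hx)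
  obtain ⟨C₀, hC₀⟩ := hU (k ^ q) (q * m + 1)
  have hcert : ∀ j ≤ q, Cert PatC C₀ k m j := by
    intro j
    induction j with
    | zero =>
      intro _
      refine ⟨{0}, 0, singleton_nonempty _, by simp, fun χ t h1 _ => ?_⟩
      obtain ⟨i, hi, -⟩ := h1 0 (mem_singleton_self _)
      omega
    | succ j ih =>
      intro hj
      exact cert_step hT (by omega) (hbad ⟨j, by omega⟩) (ih (by omega))
  obtain ⟨W, ρ, hWne, hWk, hW⟩ := hcert q le_rfl
  obtain ⟨H, ⟨hH1, hH2⟩, hH3⟩ := hC₀ W hWne hWk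
  obtain ⟨χ, hχ1, hχ2, hχ3⟩ := hS H hH3
  have hfin : ∃ i R, ¬ PatC i (χ i) R := by
    refine hW χ 0 (fun w hw => ?_) (fun i y hy _ => ?_)
    swap
    · obtain ⟨x, hx, hxy⟩ := hH2 y (hχ2 i hy)
      exact ⟨x, hx, by rwa [zero_add]⟩
    by_contra hno
    push Not at hno
    have h1 := hH1 w hw
    have h2 : H.filter (fun h => |h - w| ≤ C₀) ⊆
        univ.biUnion (fun i : Fin q => (χ i).filter (fun y => |y - (0 + w)| ≤ C₀)) := by
      intro y hy
      rw [mem_filter] at hy
      obtain ⟨c, hc⟩ := hχ1 y hy.1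
      rw [mem_biUnion]
      refine ⟨c, mem_univ _, mem_filter.2 ⟨hc, ?_⟩⟩
      rw [zero_add]
      exact hy.2
    have h3 := (card_le_card h2).trans card_biUnion_le
    have h4 : ∑ i : Fin q, ((χ i).filter (fun y => |y - (0 + w)| ≤ C₀)).card ≤ q * m := by
      calc _ ≤ ∑ _i : Fin q, m := sum_le_sum fun i _ => (hno i i.2).le
        _ = q * m := by simp
    omega
  obtain ⟨i, R, hiR⟩ := hfin
  exact hiR (hχ3 i R)

end Pool.Agent.Q51.OC
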