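import Pool.Agent.W218.OG.Orb
import Pool.Agent.Q51.OC.Abs

/-!
# Patterns of one class of primes in orbits of `x ↦ D x + e`
-/

set_option autoImplicit false

namespace Pool.Agent.Q51.OC

open Finset Filter Pool.Agent.H447R3.IT Pool.Agent.H732R3.BigQ Pool.Agent.W59.GB
  Pool.Agent.W218.OG

/-- the times at which the orbit is in `A`, around time `R`, are exactly those in `P`, for many
orbits -/
def PatA (A : ℤ → Prop) (D : ℕ) (e : ℤ) (P : Finset ℤ) (R : ℕ) : Prop :=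
  Big {n : ℕ | ∀ y : ℤ, |y| ≤ R → (A ((S D e)^[((R : ℤ) + y).toNat] (n : ℤ)) ↔ y ∈ P)}

theorem transA (A : ℤ → Prop) (D : ℕ) (e : ℤ) (hD : 2 ≤ D) : Ab.Trans (PatA A D e) := by
  intro P H G R t hP hle hy
  have ht := neg_abs_le t
  obtain ⟨j, hj⟩ : ∃ j : ℕ, (j : ℤ) = G + t - R :=
    ⟨((G : ℤ) + t - R).toNat, Int.toNat_of_nonneg (by linarith)⟩
  refine big_shift D e hD j hP fun n hn n' hn' => ?_
  intro y hyR
  have h1 := hn (t + y) ((abs_add_le _ _).trans (by linarith))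
  rw [← hy y hyR, ← h1, hn', ← S_iter_add]
  have h2 : j + ((R : ℤ) + y).toNat = ((G : ℤ) + (t + y)).toNat := by
    have := abs_le.1 hyR
    omega
  rw [h2]

/-- an exact pattern of primes is divided into exact patterns of the classes -/
theorem split {q : ℕ} (Cl : Fin q → ℤ → Prop) (D : ℕ) (e : ℤ) (hD : 2 ≤ D)
    (h1 : ∀ c z, Cl c z → Pr z) (h2 : ∀ z, Pr z → ∃ c, Cl c z) (H : Finset ℤ)
    (hH : ∀ R, PatO D e H R) : ∃ χ : Fin q → Finset ℤ,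
      (∀ h ∈ H, ∃ c, h ∈ χ c) ∧ (∀ c, χ c ⊆ H) ∧ ∀ c R, PatA (Cl c) D e (χ c) R := by
  classical
  obtain ⟨M, hM⟩ := bound H
  have key : ∀ R : ℕ, ∃ χ : Fin q → {P // P ∈ H.powerset},
      (M ≤ R → ∀ h ∈ H, ∃ c, h ∈ (χ c).1) ∧ ∀ c, PatA (Cl c) D e (χ c).1 R := by
    intro R
    set X : Set ℕ := {n : ℕ | ∀ y : ℤ, |y| ≤ R →
      (Pr ((S D e)^[((R : ℤ) + y).toNat] (n : ℤ)) ↔ y ∈ H)} with hX
    set Y : (Fin q → {P // P ∈ H.powerset}) → Set ℕ := fun χ => {n | n ∈ X ∧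
      ∀ c, H.filter (fun y => Cl c ((S D e)^[((R : ℤ) + y).toNat] (n : ℤ))) = (χ c).1} with hY
    obtain ⟨χ, hχ⟩ := big_cover Y X (hH R) (by
      intro n hn
      rw [Set.mem_iUnion]
      exact ⟨fun c => ⟨_, mem_powerset.2 (filter_subset _ _)⟩, hn, fun c => rfl⟩)
    refine ⟨χ, fun hMR h hh => ?_, fun c => ?_⟩
    · obtain ⟨n, hn1, hn2⟩ := hχ.infinite.nonempty
      have h3 : Pr ((S D e)^[((R : ℤ) + h).toNat] (n : ℤ)) :=
        (hn1 h ((hM h hh).trans (by exact_mod_cast hMR))).2 hh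
      obtain ⟨c, hc⟩ := h2 _ h3
      refine ⟨c, ?_⟩
      rw [← hn2 c]
      exact mem_filter.2 ⟨hh, hc⟩
    · refine Big.mono ?_ hχ
      rintro n ⟨hn1, hn2⟩ y hy
      rw [← hn2 c, mem_filter]
      constructor
      · exact fun h3 => ⟨(hn1 y hy).1 (h1 c _ h3), h3⟩
      · exact fun h3 => h3.2
  choose f hf1 hf2 using key
  obtain ⟨χ, hχ⟩ := Finite.exists_infinite_fiber f
  have hχ' : (f ⁻¹' {χ}).Infinite := Set.infinite_coe_iff.1 hχ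
  refine ⟨fun c => (χ c).1, fun h hh => ?_, fun c => mem_powerset.1 (χ c).2, fun c R => ?_⟩
  · obtain ⟨R, hR, hlt⟩ := hχ'.exists_gt M
    have h3 := hf1 R hlt.le h hh
    have h4 : f R = χ := hR
    rwa [h4] at h3
  · obtain ⟨R', hR', hlt⟩ := hχ'.exists_gt R
    have h4 : f R' = χ := hR'
    have h3 := hf2 R' c
    rw [h4] at h3
    exact transA _ D e hD _ _ R' R 0 h3 (by rw [abs_zero, zero_add]; exact_mod_cast hlt.le)
      fun y _ => by rw [zero_add]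

/-- **the primes of one class in many orbits follow every finite pattern up to a bounded error** -/
theorem orb_class (D : ℕ) (e : ℤ) (hD : 2 ≤ D) (he : e ≠ 0) (hcop : IsCoprime e (D : ℤ))
    (hm : ∀ p : ℕ, p.Prime → p ∣ D - 1 → (p : ℤ) ∣ e) {q : ℕ} (Cl : Fin q → ℤ → Prop)
    (hcl1 : ∀ c z, Cl c z → Pr z) (hcl2 : ∀ z, Pr z → ∃ c, Cl c z) :
    ∃ c : Fin q, ∀ k m : ℕ, ∃ C : ℕ, ∀ V : Finset ℕ, 0 ∈ V → V.card ≤ k →
    ∃ H : Finset ℕ, 0 ∈ H ∧ (∀ x ∈ V, m ≤ (H.filter (fun h : ℕ => |(h : ℤ) - x| ≤ C)).card) ∧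
      (∀ h ∈ H, ∃ x ∈ V, |(h : ℤ) - x| ≤ C) ∧
      ∀ R : ℕ, Big {p : ℕ | Cl c (p : ℤ) ∧ ∀ t ≤ R, (Cl c ((S D e)^[t] (p : ℤ)) ↔ t ∈ H)} := by
  classical
  obtain ⟨c, hc⟩ := one_class (PatO D e) (fun c => PatA (Cl c) D e) (fun c => transA _ D e hD)
    (fun k m => by
      obtain ⟨C, hC⟩ := Ab.hausdorff (transO D e hD) (m + 1)
        (clusO D e hD he hcop hm quarterB (m + 1) (by omega)) k
      refine ⟨C, fun V hV hVk => ?_⟩
      obtain ⟨H, hH1, hH2, hH3⟩ := hC V hV hVk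
      exact ⟨H, ⟨fun x hx => (Nat.le_succ m).trans (hH1 x hx), hH2⟩, hH3⟩)
    (fun H hH => split Cl D e hD hcl1 hcl2 H hH)
  refine ⟨c, fun k m => ?_⟩
  obtain ⟨C, hC⟩ := hc k (m + 1)
  refine ⟨2 * C, fun V hV0 hVk => ?_⟩
  obtain ⟨H, ⟨hH1, hH2⟩, hH3⟩ := hC (V.image fun x : ℕ => (x : ℤ))
    ⟨0, mem_image.2 ⟨0, hV0, rfl⟩⟩ (card_image_le.trans hVk)
  have h0 := hH1 0 (mem_image.2 ⟨0, hV0, rfl⟩)
  obtain ⟨h1, hh1⟩ := card_pos.1 (lt_of_lt_of_le (Nat.succ_pos m) h0)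
  rw [mem_filter] at hh1
  have hne : H.Nonempty := ⟨h1, hh1.1⟩
  obtain ⟨h₀, hh₀⟩ : ∃ h₀, h₀ = H.min' hne := ⟨_, rfl⟩
  have hh₀m : h₀ ∈ H := by rw [hh₀]; exact H.min'_mem hne
  have hmin : ∀ h ∈ H, h₀ ≤ h := by
    intro h hh
    rw [hh₀]
    exact H.min'_le h hh
  have hh₀u : h₀ ≤ C := by
    have h2 := hmin _ hh1.1
    have h3 := (abs_le.1 hh1.2).2
    linarith
  have hh₀l : -(C : ℤ) ≤ h₀ := by
    obtain ⟨x, hx, hxh⟩ := hH2 h₀ hh₀m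
    obtain ⟨z, -, rfl⟩ := mem_image.1 hx
    have h3 := (abs_le.1 hxh).1
    have : (0 : ℤ) ≤ (z : ℤ) := Nat.cast_nonneg z
    linarith
  have hcast : ∀ h ∈ H, (((h - h₀).toNat : ℕ) : ℤ) = h - h₀ := fun h hh =>
    Int.toNat_of_nonneg (by have := hmin h hh; linarith)
  refine ⟨H.image fun h => (h - h₀).toNat, mem_image.2 ⟨h₀, hh₀m, by simp⟩, fun x hx => ?_,
    fun h hh => ?_, fun R => ?_⟩
  · have h2 := hH1 x (mem_image.2 ⟨x, hx, rfl⟩)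
    refine (Nat.le_succ m).trans (h2.trans ?_)
    apply card_le_card_of_injOn (fun h => (h - h₀).toNat)
    · intro h hh
      rw [mem_coe, mem_filter] at hh
      rw [mem_coe, mem_filter]
      refine ⟨mem_image.2 ⟨h, hh.1, rfl⟩, ?_⟩
      simp only
      rw [hcast h hh.1]
      have h3 := abs_le.1 hh.2
      rw [abs_le]
      push_cast
      constructor <;> linarith [h3.1, h3.2]
    · intro h hh h' hh' heq
      rw [mem_coe, mem_filter] at hh hh'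
      have e1 := hcast h hh.1
      have e2 := hcast h' hh'.1
      simp only at heq
      rw [heq, e2] at e1
      linarith
  · obtain ⟨h', hh', rfl⟩ := mem_image.1 hh
    obtain ⟨x, hx, hxh⟩ := hH2 h' hh'
    obtain ⟨z, hz, rfl⟩ := mem_image.1 hx
    refine ⟨z, hz, ?_⟩
    rw [hcast h' hh']
    have h3 := abs_le.1 hxh
    rw [abs_le]
    push_cast
    constructor <;> linarith [h3.1, h3.2]
  · have h2 := hH3 (R + C)
    refine big_shift D e hD (((R + C : ℕ) : ℤ) + h₀).toNat h2 fun n hn p hp => ?_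
    have h3 : Cl c (p : ℤ) := by
      rw [hp]
      refine (hn h₀ ?_).2 hh₀m
      rw [abs_le]
      push_cast
      constructor <;> linarith [Nat.cast_nonneg (α := ℤ) R]
    refine ⟨h3, fun t ht => ?_⟩
    have h4 := hn (h₀ + t) (by
      rw [abs_le]
      push_cast
      have : (t : ℤ) ≤ R := by exact_mod_cast ht
      have h5 : (0 : ℤ) ≤ t := Nat.cast_nonneg t
      constructor <;> linarith)
    rw [hp, ← S_iter_add]
    have h5 : (((R + C : ℕ) : ℤ) + h₀).toNat + t = (((R + C : ℕ) : ℤ) + (h₀ + t)).toNat := by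
      omega
    rw [h5, h4, mem_image]
    constructor
    · intro h6
      exact ⟨_, h6, by omega⟩
    · rintro ⟨h, hh, rfl⟩
      rw [hcast h hh]
      have : h₀ + (h - h₀) = h := by ring
      rw [this]
      exact hh

/-- the same for classes of natural numbers -/
theorem orb_class_nat (D : ℕ) (e : ℤ) (hD : 2 ≤ D) (he : e ≠ 0) (hcop : IsCoprime e (D : ℤ))
    (hm : ∀ p : ℕ, p.Prime → p ∣ D - 1 → (p : ℤ) ∣ e) (a : ℕ → ℕ → ℕ)
    (ha : ∀ p j : ℕ, p.Prime → ((a p j : ℕ) : ℤ) = (S D e)^[j] (p : ℤ)) {q : ℕ}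
    (P : Fin q → Set ℕ) (hP1 : ∀ c, ∀ p ∈ P c, p.Prime) (hP2 : ∀ p : ℕ, p.Prime → ∃ c, p ∈ P c) :
    ∃ c : Fin q, ∀ k m : ℕ, ∃ C : ℕ, ∀ V : Finset ℕ, 0 ∈ V → V.card ≤ k →
    ∃ H : Finset ℕ, 0 ∈ H ∧ (∀ x ∈ V, m ≤ (H.filter (fun h : ℕ => |(h : ℤ) - x| ≤ C)).card) ∧
      (∀ h ∈ H, ∃ x ∈ V, |(h : ℤ) - x| ≤ C) ∧
      ∀ (R : ℕ) (η : ℝ), 0 < η → ∃ᶠ x : ℝ in atTop,
        x ^ (1 - η) ≤ ({p : ℕ | (p : ℝ) ≤ x ∧ p ∈ P c ∧ ∀ t ≤ R, (a p t ∈ P c ↔ t ∈ H)}.ncard : ℝ) := by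
  obtain ⟨c, hc⟩ := orb_class D e hD he hcop hm (fun c z => ∃ p ∈ P c, (p : ℤ) = z)
    (by
      rintro c z ⟨p, hp, rfl⟩
      exact (pr_natO p).2 (hP1 c p hp))
    (by
      intro z hz
      obtain ⟨n, rfl⟩ : ∃ n : ℕ, (n : ℤ) = z := ⟨z.toNat, Int.toNat_of_nonneg hz.1.le⟩
      obtain ⟨c, hc⟩ := hP2 n ((pr_natO n).1 hz)
      exact ⟨c, n, hc, rfl⟩)
  refine ⟨c, fun k m => ?_⟩
  obtain ⟨C, hC⟩ := hc k m
  refine ⟨C, fun V hV0 hVk => ?_⟩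
  obtain ⟨H, h0, h1, h2, h3⟩ := hC V hV0 hVk
  refine ⟨H, h0, h1, h2, fun R η hη => ?_⟩
  refine ((h3 R) η hη).mono fun x hx => hx.trans (le_of_eq ?_)
  congr 2
  ext p
  have key : ∀ n : ℕ, (∃ p ∈ P c, (p : ℤ) = (n : ℤ)) ↔ n ∈ P c := by
    intro n
    constructor
    · rintro ⟨p, hp, hpn⟩
      have : p = n := by exact_mod_cast hpn
      rwa [← this]
    · exact fun h => ⟨n, h, rfl⟩
  simp only [Set.mem_ofPred_eq]
  rw [key]
  constructor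
  · rintro ⟨⟨h4, h5⟩, h6⟩
    refine ⟨h6, h4, fun t ht => ?_⟩
    rw [← h5 t ht, ← ha p t (hP1 c p h4), key]
  · rintro ⟨h6, h4, h5⟩
    refine ⟨⟨h4, fun t ht => ?_⟩, h6⟩
    rw [← ha p t (hP1 c p h4), key]
    exact h5 t ht

end Pool.Agent.Q51.OC
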